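import Pool.Agent.Y636.CL.Mem
import Pool.Agent.Y636.CL.Up

/-!
The number of bits per example needed for learning DNF formulas: asymptotic forms.
-/

set_option autoImplicit false

namespace Pool.Agent.Y636.CL

open Finset Pool.Agent.W964.Wd Filter

/-- The asymptotic lower bound for memory. -/
theorem low_mem_asym (C : ℝ) (hC : 0 < C) : ∃ δ : ℝ, 0 < δ ∧ ∃ n₀ : ℕ, ∀ n : ℕ, n₀ ≤ n →
    ∀ (N S P : ℕ), (N : ℝ) ≤ (n : ℝ) ^ C → (S : ℝ) * P ≤ δ * n →
      ∀ (R : Type) [Fintype R] [Nonempty R] (M : R → MemLearner N S P (Ex n) (Hy n)),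
        ∃ f : Hy n, IsDnf n f ∧
          learnProbR (fun r => (M r).run) f (1 / 2 - (n : ℝ) ^ (-C)) ≤ (n : ℝ) ^ (-C) := by
  obtain ⟨δ, hδ, n₀, h⟩ := low_asym C hC
  refine ⟨δ, hδ, n₀, fun n hn N S P hN hSP R _ _ M => ?_⟩
  choose π hπ1 hπ2 using fun r => exists_sim (M r)
  obtain ⟨f, hf, hle⟩ := h n hn N (S * P) hN (by push_cast; exact hSP) R π hπ2
  refine ⟨f, hf, ?_⟩
  have h1 : (fun r => (π r).run) = fun r => (M r).run := by
    funext r e
    exact hπ1 r e
  rwa [h1] at hle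

theorem IsDnf.mono {n s s' : ℕ} (h : s ≤ s') {f : Hy n} (hf : IsDnf s f) : IsDnf s' f := by
  obtain ⟨r, t, hr, ht⟩ := hf
  exact ⟨r, t, hr.trans h, ht⟩

/-- The asymptotic upper bound: for every `δ > 0`, polynomially many examples with `δ n` bits each
suffice. -/
theorem up_asym (C δ : ℝ) (hC : 0 < C) (hδ : 0 < δ) : ∃ K : ℝ, 0 < K ∧ ∃ n₀ : ℕ,
    ∀ n : ℕ, n₀ ≤ n → ∀ N : ℕ, (n : ℝ) ^ K ≤ N →
      ∃ (R : Type) (_ : Fintype R) (_ : Nonempty R) (b : ℕ) (π : R → Prot N (Ex n) (Hy n)),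
        (b : ℝ) ≤ δ * n ∧ (∀ r j, (π r).load j ≤ b) ∧ (∀ r, (π r).Silent b) ∧
        ∀ (s : ℕ) (f : Hy n), (s : ℝ) ≤ (n : ℝ) ^ C → IsDnf s f →
          1 - (n : ℝ) ^ (-C) ≤ learnProbR (fun r => (π r).run) f ((n : ℝ) ^ (-C)) := by
  obtain ⟨d, hd⟩ : ∃ d : ℝ, d = min δ 1 := ⟨_, rfl⟩
  have hd0 : 0 < d := by rw [hd]; exact lt_min hδ one_pos
  have hd1 : d ≤ 1 := by rw [hd]; exact min_le_right _ _
  have hdδ : d ≤ δ := by rw [hd]; exact min_le_left _ _
  obtain ⟨A, hA⟩ : ∃ A : ℝ, A = 4 / d := ⟨_, rfl⟩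
  have hA4 : 4 ≤ A := by
    rw [hA, le_div_iff₀ hd0]
    linarith
  have hl2 : 0 < Real.log 2 := Real.log_pos (by norm_num)
  have hlA : 0 < Real.logb 2 A := Real.logb_pos (by norm_num) (by linarith)
  refine ⟨2 * C * Real.logb 2 A + 2 * C + 2, by positivity, ?_⟩
  -- logarithms are small
  have hlog : Tendsto (fun n : ℕ => (Real.log n) ^ 2 / (n : ℝ)) atTop (nhds 0) :=
    (Real.isLittleO_pow_log_id_atTop (n := 2).tendsto_div_nhds_zero).comp
      tendsto_natCast_atTop_atTop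
  have hev : ∀ᶠ n : ℕ in atTop, (Real.log n) ^ 2 / (n : ℝ) < d / (8 * (4 * C / Real.log 2 + 3 + C)) :=
    hlog.eventually_lt_const (by positivity)
  obtain ⟨n₁, hn₁⟩ := eventually_atTop.1 hev
  refine ⟨max n₁ (⌈4 * A⌉₊ + 22), ?_⟩
  intro n hn N hN
  have hnn : n₁ ≤ n := le_trans (le_max_left _ _) hn
  have hn2 : ⌈4 * A⌉₊ + 22 ≤ n := le_trans (le_max_right _ _) hn
  have hn22 : 22 ≤ n := by omega
  have hnR : (22 : ℝ) ≤ n := by exact_mod_cast hn22
  have hnp : (0 : ℝ) < n := by linarith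
  have hn1 : (1 : ℝ) ≤ n := by linarith
  have hnA : 4 * A ≤ n := (Nat.le_ceil _).trans (by exact_mod_cast (by omega :
    ⌈4 * A⌉₊ ≤ n))
  have hL1 : 1 ≤ Real.log n := by
    rw [Real.le_log_iff_exp_le hnp]
    have := Real.exp_one_lt_d9
    linarith
  have hLL : Real.log n ≤ Real.log n ^ 2 := by nlinarith
  have hLn : (4 * C / Real.log 2 + 3 + C) * Real.log n ^ 2 ≤ d / 8 * n := by
    have h1 := hn₁ n hnn
    rw [div_lt_div_iff₀ hnp (by positivity)] at h1
    nlinarith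
  -- the parameters
  obtain ⟨b, hb⟩ : ∃ b, b = ⌊d * n⌋₊ - 1 := ⟨_, rfl⟩
  have hdn : 16 ≤ d * n := by
    rw [hA] at hnA
    have : 4 * (4 / d) = 16 / d := by ring
    rw [this, div_le_iff₀ hd0] at hnA
    linarith
  have hfl : 16 ≤ ⌊d * n⌋₊ := Nat.le_floor (by exact_mod_cast hdn)
  have hb1 : ((b + 1 : ℕ) : ℝ) ≤ d * n := by
    have : b + 1 = ⌊d * n⌋₊ := by omega
    rw [this]
    exact Nat.floor_le (by positivity)
  have hb2 : d * n / 2 ≤ b := by
    have h1 : d * n < ⌊d * n⌋₊ + 1 := Nat.lt_floor_add_one _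
    have h2 : ((⌊d * n⌋₊ : ℕ) : ℝ) = b + 1 := by
      have : ⌊d * n⌋₊ = b + 1 := by omega
      rw [this]; push_cast; ring
    rw [h2] at h1
    linarith
  have hbp : (0 : ℝ) < b := by linarith
  have hb1' : 1 ≤ b := by exact_mod_cast hbp
  have hbn : b ≤ n := by
    have : (b : ℝ) ≤ n := by
      push_cast at hb1
      nlinarith
    exact_mod_cast this
  obtain ⟨s, hs⟩ : ∃ s, s = ⌊(n : ℝ) ^ C⌋₊ := ⟨_, rfl⟩
  have hnC : 1 ≤ (n : ℝ) ^ C := Real.one_le_rpow hn1 hC.le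
  have hs1 : 1 ≤ s := by
    rw [hs]
    exact Nat.le_floor (by exact_mod_cast hnC)
  have hsle : (s : ℝ) ≤ (n : ℝ) ^ C := by
    rw [hs]
    exact Nat.floor_le (by positivity)
  obtain ⟨l, hl⟩ : ∃ l, l = ⌈2 * C * (Real.log n / Real.log 2)⌉₊ := ⟨_, rfl⟩
  have hl0 : 2 * C * (Real.log n / Real.log 2) ≤ l := by
    rw [hl]
    exact Nat.le_ceil _
  have hlup : (l : ℝ) ≤ 2 * C * (Real.log n / Real.log 2) + 1 := by
    rw [hl]
    exact (Nat.ceil_lt_add_one (by positivity)).le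
  have hlL : (l : ℝ) ≤ (2 * C / Real.log 2 + 1) * Real.log n := by
    have : 2 * C * (Real.log n / Real.log 2) + 1 ≤ (2 * C / Real.log 2 + 1) * Real.log n := by
      have : 2 * C * (Real.log n / Real.log 2) = 2 * C / Real.log 2 * Real.log n := by ring
      rw [this]
      linarith
    linarith
  have hε0 : 0 < (n : ℝ) ^ (-C) := Real.rpow_pos_of_pos hnp _
  have hpow2 : (n : ℝ) ^ (2 * C) ≤ 2 ^ l := by
    have h1 : (n : ℝ) ^ (2 * C) = 2 ^ (2 * C * (Real.log n / Real.log 2)) := by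
      rw [Real.rpow_def_of_pos hnp, Real.rpow_def_of_pos (by norm_num)]
      congr 1
      field_simp
    rw [h1, ← Real.rpow_natCast]
    exact Real.rpow_le_rpow_of_exponent_le (by norm_num) hl0
  have hse : (s : ℝ) / (n : ℝ) ^ (-C) ≤ (n : ℝ) ^ (2 * C) := by
    rw [div_le_iff₀ hε0, ← Real.rpow_add hnp]
    have : 2 * C + -C = C := by ring
    rw [this]
    exact hsle
  have hlb : 2 * l ≤ b + 2 := by
    have h1 : (2 * C / Real.log 2 + 1) * Real.log n
        ≤ (4 * C / Real.log 2 + 3 + C) * Real.log n ^ 2 := by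
      have e1 : (2 * C / Real.log 2 + 1) * Real.log n
          ≤ (2 * C / Real.log 2 + 1) * Real.log n ^ 2 :=
        mul_le_mul_of_nonneg_left hLL (by positivity)
      have e2 : (2 * C / Real.log 2 + 1) * Real.log n ^ 2
          ≤ (4 * C / Real.log 2 + 3 + C) * Real.log n ^ 2 := by
        refine mul_le_mul_of_nonneg_right ?_ (by positivity)
        have : 2 * C / Real.log 2 ≤ 4 * C / Real.log 2 :=
          div_le_div_of_nonneg_right (by linarith) hl2.le
        linarith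
      linarith
    have h2 : (2 * l : ℝ) ≤ b + 2 := by linarith
    exact_mod_cast h2
  have hbound : (2 * n / b : ℝ) ^ l * (4 * s / (n : ℝ) ^ (-C)) *
      (l * Real.log (2 * n + 1) + Real.log (1 / (n : ℝ) ^ (-C))) ≤ N := by
    refine le_trans ?_ hN
    have h1 : (2 * n / b : ℝ) ≤ A := by
      rw [div_le_iff₀ hbp, hA]
      have : 4 / d * (d * n / 2) ≤ 4 / d * b := mul_le_mul_of_nonneg_left hb2 (by positivity)
      have e : 4 / d * (d * n / 2) = 2 * n := by field_simp; norm_num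
      linarith
    have h2 : (2 * n / b : ℝ) ^ l ≤ A * (n : ℝ) ^ (2 * C * Real.logb 2 A) := by
      calc (2 * n / b : ℝ) ^ l ≤ A ^ l := pow_le_pow_left₀ (by positivity) h1 l
        _ = A ^ (l : ℝ) := (Real.rpow_natCast _ _).symm
        _ ≤ A ^ (2 * C * (Real.log n / Real.log 2) + 1) :=
          Real.rpow_le_rpow_of_exponent_le (by linarith) hlup
        _ = A * (n : ℝ) ^ (2 * C * Real.logb 2 A) := by
          rw [Real.rpow_add (by linarith), Real.rpow_one, mul_comm]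
          congr 1
          rw [Real.rpow_def_of_pos (by linarith), Real.rpow_def_of_pos hnp]
          congr 1
          unfold Real.logb
          field_simp
    have h3 : 4 * (s : ℝ) / (n : ℝ) ^ (-C) ≤ 4 * (n : ℝ) ^ (2 * C) := by
      have : 4 * (s : ℝ) / (n : ℝ) ^ (-C) = 4 * (s / (n : ℝ) ^ (-C)) := by ring
      rw [this]
      linarith
    have h4 : l * Real.log (2 * n + 1) + Real.log (1 / (n : ℝ) ^ (-C)) ≤ n := by
      have e1 : Real.log (2 * n + 1) ≤ 2 * Real.log n := by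
        rw [← Real.log_rpow hnp]
        refine Real.log_le_log (by positivity) ?_
        norm_num
        nlinarith
      have e2 : Real.log (1 / (n : ℝ) ^ (-C)) = C * Real.log n := by
        rw [one_div, ← Real.rpow_neg hnp.le, neg_neg, Real.log_rpow hnp]
      have e3 : l * Real.log (2 * n + 1)
          ≤ ((2 * C / Real.log 2 + 1) * Real.log n) * (2 * Real.log n) :=
        mul_le_mul hlL e1 (Real.log_nonneg (by linarith)) (by positivity)
      rw [e2]
      have e4 : C * Real.log n ≤ C * Real.log n ^ 2 := mul_le_mul_of_nonneg_left hLL hC.le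
      have e5 : ((2 * C / Real.log 2 + 1) * Real.log n) * (2 * Real.log n) + C * Real.log n ^ 2
          ≤ (4 * C / Real.log 2 + 3 + C) * Real.log n ^ 2 := by
        have : ((2 * C / Real.log 2 + 1) * Real.log n) * (2 * Real.log n) + C * Real.log n ^ 2
            = (4 * C / Real.log 2 + 2 + C) * Real.log n ^ 2 := by ring
        rw [this]
        exact mul_le_mul_of_nonneg_right (by linarith) (by positivity)
      nlinarith
    have h5 : 0 ≤ l * Real.log (2 * n + 1) + Real.log (1 / (n : ℝ) ^ (-C)) := by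
      have e2 : Real.log (1 / (n : ℝ) ^ (-C)) = C * Real.log n := by
        rw [one_div, ← Real.rpow_neg hnp.le, neg_neg, Real.log_rpow hnp]
      rw [e2]
      have := Real.log_nonneg (by linarith : (1 : ℝ) ≤ 2 * n + 1)
      positivity
    have hq0 : 0 < (n : ℝ) ^ (2 * C * Real.logb 2 A) := by positivity
    have hq1 : 0 < (n : ℝ) ^ (2 * C) := by positivity
    calc (2 * n / b : ℝ) ^ l * (4 * s / (n : ℝ) ^ (-C)) *
        (l * Real.log (2 * n + 1) + Real.log (1 / (n : ℝ) ^ (-C)))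
        ≤ (A * (n : ℝ) ^ (2 * C * Real.logb 2 A)) * (4 * (n : ℝ) ^ (2 * C)) * n :=
          mul_le_mul (mul_le_mul h2 h3 (by positivity) (by positivity)) h4 h5 (by positivity)
      _ = (4 * A) * ((n : ℝ) ^ (2 * C * Real.logb 2 A) * (n : ℝ) ^ (2 * C) * n) := by ring
      _ ≤ n * ((n : ℝ) ^ (2 * C * Real.logb 2 A) * (n : ℝ) ^ (2 * C) * n) :=
          mul_le_mul_of_nonneg_right hnA (by positivity)
      _ = (n : ℝ) ^ (2 * C * Real.logb 2 A + 2 * C + 2) := by
          rw [Real.rpow_add hnp, Real.rpow_add hnp]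
          norm_num
          ring
  obtain ⟨R, hR1, hR2, π, hπ1, hπ2, hπ3⟩ := up_core (n := n) (s := s) (l := l) (b := b) (N := N)
    hs1 hε0 hε0 (hse.trans hpow2) hlb hb1' hbn hbound
  refine ⟨R, hR1, hR2, b + 1, π, hb1.trans (mul_le_mul_of_nonneg_right hdδ hnp.le), hπ1, hπ2, ?_⟩
  intro s' f hs' hf
  refine hπ3 f (IsDnf.mono ?_ hf)
  rw [hs]
  exact Nat.le_floor hs'

end Pool.Agent.Y636.CL
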