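import Pool.Agent.Y636.CL.Low

/-!
Learners with little memory and few passes.
-/

set_option autoImplicit false

namespace Pool.Agent.Y636.CL

open Finset Pool.Agent.W964.Wd

variable {N S : ℕ} {E H : Type}

/-- Party `i` writes `S` bits. -/
def sayAll (i : Fin N) (g : E → Fin S → Bool) (K : (Fin S → Bool) → Prot N E H) :
    List (Fin S) → (Fin S → Bool) → Prot N E H
  | [], c => K c
  | k :: L, c => .say i (fun e => g e k) (sayAll i g K L (Function.update c k false))
      (sayAll i g K L (Function.update c k true))

theorem sayAll_run (i : Fin N) (g : E → Fin S → Bool) (K : (Fin S → Bool) → Prot N E H)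
    (e : Fin N → E) (L : List (Fin S)) (c : Fin S → Bool) :
    (sayAll i g K L c).run e = (K fun k => if k ∈ L then g (e i) k else c k).run e := by
  induction L generalizing c with
  | nil => simp [sayAll]
  | cons p L ih =>
    have hf : ∀ v : Bool, g (e i) p = v →
        (fun k => if k ∈ L then g (e i) k else Function.update c p v k)
          = fun k => if k ∈ p :: L then g (e i) k else c k := by
      intro v hv
      funext k
      by_cases h1 : k ∈ L
      · rw [if_pos h1, if_pos (List.mem_cons_of_mem _ h1)]
      · rw [if_neg h1]
        by_cases h2 : k = p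
        · subst h2
          rw [Function.update_self, if_pos List.mem_cons_self, hv]
        · rw [Function.update_of_ne h2, if_neg]
          rw [List.mem_cons]
          tauto
    rw [sayAll, Prot.run]
    split_ifs with h
    · rw [ih, hf true h]
    · rw [ih, hf false (by simpa using h)]

theorem sayAll_load (i j : Fin N) (g : E → Fin S → Bool) (K : (Fin S → Bool) → Prot N E H)
    (w : ℕ) (hK : ∀ c, (K c).load j ≤ w) (L : List (Fin S)) (c : Fin S → Bool) :
    (sayAll i g K L c).load j ≤ (if i = j then L.length else 0) + w := by
  induction L generalizing c with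
  | nil => simpa [sayAll] using hK c
  | cons p L ih =>
    rw [sayAll, Prot.load]
    have h1 := ih (Function.update c p false)
    have h2 := ih (Function.update c p true)
    by_cases h : i = j
    · rw [if_pos h] at h1 h2 ⊢
      rw [if_pos h, List.length_cons]
      omega
    · rw [if_neg h] at h1 h2 ⊢
      rw [if_neg h]
      omega

/-- The protocol simulating a list of instructions. -/
def simP (o : (Fin S → Bool) → H) :
    List (Fin N × ((Fin S → Bool) → E → (Fin S → Bool))) → (Fin S → Bool) → Prot N E H
  | [], m => .out (o m)
  | a :: p, m => sayAll a.1 (fun e => a.2 m e) (fun c => simP o p c) (List.finRange S) m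

theorem simP_run (o : (Fin S → Bool) → H) (e : Fin N → E)
    (p : List (Fin N × ((Fin S → Bool) → E → (Fin S → Bool)))) (m : Fin S → Bool) :
    (simP o p m).run e = o (p.foldl (fun m a => a.2 m (e a.1)) m) := by
  induction p generalizing m with
  | nil => rfl
  | cons a p ih =>
    rw [simP, sayAll_run, ih, List.foldl_cons]
    congr 2
    funext k
    simp

theorem simP_load (o : (Fin S → Bool) → H) (j : Fin N)
    (p : List (Fin N × ((Fin S → Bool) → E → (Fin S → Bool)))) (m : Fin S → Bool) :
    (simP o p m).load j ≤ S * p.countP fun a => decide (a.1 = j) := by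
  induction p generalizing m with
  | nil => simp [simP, Prot.load]
  | cons a p ih =>
    rw [simP]
    refine (sayAll_load a.1 j _ _ _ (fun c => ih c) _ _).trans ?_
    rw [List.countP_cons, List.length_finRange]
    by_cases h : a.1 = j
    · rw [if_pos h]
      simp only [h, decide_true, if_true]
      rw [mul_add, mul_one, add_comm]
    · rw [if_neg h]
      simp [h]

/-- Learners with little memory are protocols with little communication. -/
theorem exists_sim {P : ℕ} (M : MemLearner N S P E H) :
    ∃ π : Prot N E H, (∀ e, π.run e = M.run e) ∧ ∀ j, π.load j ≤ S * P :=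
  ⟨simP M.out M.prog M.start, fun e => simP_run _ _ _ _, fun j =>
    (simP_load _ _ _ _).trans (Nat.mul_le_mul_left _ (M.reads j))⟩

/-- The lower bound for memory. -/
theorem low_mem {n N s l S P : ℕ} {R : Type} [Fintype R] [Nonempty R]
    (M : R → MemLearner N S P (Ex n) (Hy n))
    (hl : 1 ≤ l) (hs : 2 ^ (l - 1) + 1 ≤ s)
    (hln : l ≤ n) (hlb : l ≤ 2 * (S * P)) {γ : ℝ} (hγ : 0 < γ) :
    ∃ f : Hy n, IsDnf s f ∧ learnProbR (fun r => (M r).run) f (1 / 2 - γ)
      ≤ (l / n) ^ l / γ ^ 2 + 21 * N * (4 * (S * P) / n) ^ l := by
  choose π hπ1 hπ2 using fun r => exists_sim (M r)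
  obtain ⟨f, hf, h⟩ := low_dnf π hπ2 hl hs hln hlb hγ
  refine ⟨f, hf, ?_⟩
  have h1 : (fun r => (π r).run) = fun r => (M r).run := by
    funext r e
    exact hπ1 r e
  rw [h1] at h
  push_cast at h
  exact h

end Pool.Agent.Y636.CL
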